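import Pool.Agent.BSE.Stmts4

/-!
# RD2: every eigenvalue is large or has a ridge eigenfunction of tuples
-/

open MeasureTheory Matrix Finset
open scoped ComplexConjugate

namespace Pool.Agent.BSE.H43

open Pool.Agent.Helper64_FR

variable {n : ℕ}

theorem bil_dg2 (u v : Fin n → ℂ) (c : Fin n → ℝ) :
    bil u v (dg c) = ∑ i, conj (v i) * u i * (c i : ℂ) := by
  unfold bil dg
  apply Finset.sum_congr rfl
  intro i _
  rw [Finset.sum_eq_single i]
  · rw [Matrix.diagonal_apply_eq]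
    ring
  · intro j _ hj
    rw [Matrix.diagonal_apply_ne _ (Ne.symm hj)]
    ring
  · intro h
    exact absurd (Finset.mem_univ i) h

theorem ridge_of (sp2 : SP2Stmt) {k : ℕ} {ρ : URep n}
    {T : (Fin ρ.dim → ℂ) →ₗ[ℂ] ((Fin k → Matrix (Fin n) (Fin n) ℂ) → ℂ)} (hT : IsRowMap k ρ T)
    (v : Fin ρ.dim → ℂ) :
    IsRidge2 (fun c : Fin k → Fin n → ℝ => T v (fun s => dg (c s))) := by
  obtain ⟨N, a, u, v', h1, h2⟩ := sp2 n k (T v) (hT.mem v)
  refine ⟨N, a, fun t s i => conj (v' t s i) * u t i, h1, fun c => ?_⟩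
  change T v (fun s => dg (c s)) = _
  rw [h2]
  apply Finset.sum_congr rfl
  intro t _
  congr 1
  apply Finset.prod_congr rfl
  intro s _
  rw [bil_dg2]

theorem rd2 (wts : WTSStmt) (nd2 : ND2Stmt) (eg2 : EG2Stmt) (sp2 : SP2Stmt) : RD2Stmt := by
  intro n k hn ρ hρ w hw μ hμ x v hv hx
  obtain ⟨T, hT⟩ := hρ
  rcases wts n hn ρ w hw μ hμ x v hv hx with h | h
  · exact Or.inl h
  · right
    refine ⟨fun c => T v (fun s => dg (c s)), ridge_of sp2 hT v, ?_,
      eg2 n k ρ T hT w x v hx⟩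
    by_contra hc
    push Not at hc
    exact hv (nd2 n k ρ T hT v h hc)

end Pool.Agent.BSE.H43
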